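import Mathlib
import Pool.Agent.H381R3.CIP

/-!
# MP_0e7155_gt : removing non-cut points lying in the closure of a connected set

Let `X` be a connected metric space in which any two connected sets have a connected intersection.
If `C` is any set of non-cut points of `X` and `A` is any connected set disjoint from `C`, then
`X \ (C ∩ closure A)` is connected.
-/

set_option autoImplicit false

open Set Topology

universe u

namespace Pool.Agent.Results.MP_0e7155_gt.ClosureOfConnected

theorem result (X : Type u) [MetricSpace X] [ConnectedSpace X]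
    (hCIP : ∀ A B : Set X, IsPreconnected A → IsPreconnected B → IsPreconnected (A ∩ B))
    (C : Set X) (hC : ∀ c ∈ C, IsPreconnected ({c}ᶜ : Set X))
    (A : Set X) (hA : IsPreconnected A) (hAC : Disjoint A C) :
    IsPreconnected ((C ∩ closure A)ᶜ : Set X) := by
  rcases A.eq_empty_or_nonempty with rfl | hne
  · simpa using isPreconnected_univ
  obtain ⟨a, ha⟩ := hne
  have hAC' : Disjoint A (C ∩ closure A) := hAC.mono_right inter_subset_left
  refine isPreconnected_of_forall a fun y hy => ?_
  have hpt : ∀ c ∈ C ∩ closure A,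
      ∃ D : Set X, IsPreconnected D ∧ A ⊆ D ∧ y ∈ D ∧ c ∉ D := by
    intro c hc
    refine ⟨{c}ᶜ, hC c hc.1, ?_, ?_, ?_⟩
    · intro x hx h
      rw [mem_singleton_iff] at h
      exact Set.disjoint_left.1 hAC' hx (h ▸ hc)
    · intro h
      rw [mem_singleton_iff] at h
      exact hy (h ▸ hc)
    · exact fun h => h rfl
  obtain ⟨D, h1, h2, h3, h4⟩ := Pool.Agent.H381R3.CIP.main hCIP A (C ∩ closure A) hA ⟨a, ha⟩ hAC'
    inter_subset_right y hy hpt
  exact ⟨D, fun x hx hxC => Set.disjoint_left.1 h4 hx hxC, h2 ha, h3, h1⟩

end Pool.Agent.Results.MP_0e7155_gt.ClosureOfConnected
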