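import Mathlib
import Pool.Agent.Results.MP_0e7155_gt.CompactClosedSubsets
import Pool.Agent.Results.MP_0e7155_gt.ClosureOfConnected

/-!
# MP_0e7155_gt : reduction to closed sets of fewer than continuum many points

Let `X` be a connected separable metric space in which any two connected sets have a connected
intersection. If `C` is a set of non-cut points and `X \ C` is not connected, then some closed
`F ⊆ C` with fewer than continuum many points separates `X`, and `F` is not covered by finitely
many sets each of which is compact or lies in the closure of a connected set missing `F`.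
-/

set_option autoImplicit false

open Set Topology Cardinal

universe u

namespace Pool.Agent.Results.MP_0e7155_gt.SmallSeparator

/-- Bernstein decomposition of a separable metric space with respect to the closed sets with at
least continuum many points. -/
lemma exists_bernstein_closed (X : Type u) [MetricSpace X] [TopologicalSpace.SeparableSpace X] :
    ∃ D : Set X, ∀ P : Set X, IsClosed P → 𝔠 ≤ #P →
      (P ∩ D).Nonempty ∧ (P ∩ Dᶜ).Nonempty := by
  classical
  have : SecondCountableTopology X := UniformSpace.secondCountable_of_separable X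
  let ι := {P : Set X // IsClosed P ∧ 𝔠 ≤ #P}
  have hι : #ι ≤ 𝔠 := by
    let B := TopologicalSpace.countableBasis X
    have hBc : B.Countable := TopologicalSpace.countable_countableBasis X
    have hB := TopologicalSpace.isBasis_countableBasis X
    let φ : ι → Set B := fun P => {b | (b : Set X) ∩ P.1 = ∅}
    have hsub : ∀ P Q : ι, φ P = φ Q → P.1 ⊆ Q.1 := by
      intro P Q h x hx
      by_contra hxQ
      obtain ⟨b, hb, hxb, hbQ⟩ := hB.exists_subset_of_mem_open (a := x) (u := Q.1ᶜ) hxQ
        Q.2.1.isOpen_compl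
      have h1 : (⟨b, hb⟩ : B) ∈ φ Q := by
        change b ∩ Q.1 = ∅
        rw [← Set.disjoint_iff_inter_eq_empty, Set.disjoint_left]
        exact fun y hy hyQ => hbQ hy hyQ
      rw [← h] at h1
      have h2 : b ∩ P.1 = ∅ := h1
      have : x ∈ b ∩ P.1 := ⟨hxb, hx⟩
      rw [h2] at this
      exact this
    have hφ : Function.Injective φ := by
      intro P Q h
      exact Subtype.ext (Subset.antisymm (hsub P Q h) (hsub Q P h.symm))
    have h3 : #(Set B) ≤ 𝔠 := by
      rw [Cardinal.mk_set]
      have hB' : #B ≤ ℵ₀ := Cardinal.mk_le_aleph0_iff.mpr hBc.to_subtype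
      calc (2 : Cardinal.{u}) ^ #B ≤ 2 ^ ℵ₀ := Cardinal.power_le_power_left two_ne_zero hB'
        _ = 𝔠 := two_power_aleph0
    exact (Cardinal.mk_le_of_injective hφ).trans h3
  have hJ : #(ι ⊕ ι) ≤ 𝔠 := by
    rw [Cardinal.mk_sum, Cardinal.lift_id, ]
    calc #ι + #ι ≤ 𝔠 + 𝔠 := add_le_add hι hι
      _ = 𝔠 := Cardinal.continuum_add_self
  have hA : ∀ i : ι ⊕ ι, 𝔠 ≤ #((Sum.elim (fun P : ι => P.1) (fun P : ι => P.1) i : Set X)) := by
    rintro (P | P)
    · exact P.2.2
    · exact P.2.2
  obtain ⟨g, hg1, hg2⟩ := CompactClosedSubsets.exists_injective_choice 𝔠 hJ _ hA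
  refine ⟨range (g ∘ Sum.inl), ?_⟩
  intro P hP hne
  refine ⟨⟨g (Sum.inl ⟨P, hP, hne⟩), hg2 (Sum.inl ⟨P, hP, hne⟩), ⟨⟨P, hP, hne⟩, rfl⟩⟩,
    ⟨g (Sum.inr ⟨P, hP, hne⟩), hg2 (Sum.inr ⟨P, hP, hne⟩), ?_⟩⟩
  rintro ⟨Q, hQ⟩
  have := hg1 hQ
  simp at this

/-- In a separable metric space with the connected intersection property, if no closed subset of
`C` with fewer than continuum many points separates the space, then `C` does not separate it. -/
theorem small_separator (X : Type u) [MetricSpace X] [TopologicalSpace.SeparableSpace X]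
    (hCIP : ∀ A B : Set X, IsPreconnected A → IsPreconnected B → IsPreconnected (A ∩ B))
    (C : Set X) (hF : ∀ F : Set X, F ⊆ C → IsClosed F → #F < 𝔠 → IsPreconnected (Fᶜ : Set X)) :
    IsPreconnected (Cᶜ : Set X) := by
  classical
  obtain ⟨D, hD⟩ := exists_bernstein_closed X
  have key : ∀ E : Set X, (∀ P : Set X, IsClosed P → 𝔠 ≤ #P → (P ∩ E).Nonempty) →
      IsPreconnected (E ∪ Cᶜ) := by
    intro E hE
    by_contra hcon
    have hcon' : ¬ IsPreconnected (((E ∪ Cᶜ)ᶜ)ᶜ : Set X) := by rwa [compl_compl]
    obtain ⟨U, V, hU, hV, hUV, hU0, hV0, hsub⟩ := CompactClosedSubsets.exists_sep hcon'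
    have hcl : IsClosed ((U ∪ V)ᶜ : Set X) := (hU.union hV).isClosed_compl
    have hFC : ((U ∪ V)ᶜ : Set X) ⊆ C := by
      intro x hx
      by_contra hxC
      exact hsub hx (Or.inr hxC)
    rcases lt_or_ge #((U ∪ V)ᶜ : Set X) 𝔠 with hlt | hge
    · have := hF _ hFC hcl hlt
      rw [compl_compl] at this
      exact CompactClosedSubsets.not_preconnected_of_open hU hV hUV hU0 hV0 this
    · obtain ⟨x, hx1, hx2⟩ := hE _ hcl hge
      exact hsub hx1 (Or.inl hx2)
  have h1 := key D (fun P h1 h2 => (hD P h1 h2).1)
  have h2 := key Dᶜ (fun P h1 h2 => (hD P h1 h2).2)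
  have h3 := hCIP _ _ h1 h2
  have h4 : (D ∪ Cᶜ) ∩ (Dᶜ ∪ Cᶜ) = Cᶜ := by
    rw [← inter_union_distrib_right, inter_compl_self, empty_union]
  rwa [h4] at h3

/-- Let `X` be a connected separable metric space with the connected intersection property and `C`
a set of non-cut points such that `X \ C` is not connected. Then there is a closed set `F ⊆ C`
with fewer than continuum many points such that `X \ F` is not connected; moreover `F` is not
covered by finitely many sets each of which is compact or contained in the closure of a connected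
set disjoint from `F`. -/
theorem result (X : Type u) [MetricSpace X] [TopologicalSpace.SeparableSpace X] [ConnectedSpace X]
    (hCIP : ∀ A B : Set X, IsPreconnected A → IsPreconnected B → IsPreconnected (A ∩ B))
    (C : Set X) (hC : ∀ c ∈ C, IsPreconnected ({c}ᶜ : Set X))
    (hdis : ¬ IsPreconnected (Cᶜ : Set X)) :
    ∃ F : Set X, F ⊆ C ∧ IsClosed F ∧ #F < 𝔠 ∧ ¬ IsPreconnected (Fᶜ : Set X) ∧
      ∀ (n : ℕ) (K : Fin n → Set X),
        (∀ i, IsCompact (K i) ∨
          ∃ A : Set X, IsPreconnected A ∧ Disjoint A F ∧ K i ⊆ closure A) →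
        ¬ F ⊆ ⋃ i, K i := by
  classical
  by_contra hno
  push Not at hno
  refine hdis (small_separator X hCIP C ?_)
  intro F hFC hFcl hFlt
  by_contra hFdis
  obtain ⟨n, K, hK, hcov⟩ := hno F hFC hFcl hFlt hFdis
  have hpiece : ∀ i, IsPreconnected ((F ∩ K i)ᶜ : Set X) := by
    intro i
    rcases hK i with hcomp | ⟨A, hA, hAF, hKA⟩
    · refine CompactClosedSubsets.result X hCIP (F ∩ K i) (fun p hp => hC p (hFC hp.1)) ?_
      intro G hG hGcl
      exact hcomp.of_isClosed_subset hGcl (hG.trans inter_subset_right)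
    · have := ClosureOfConnected.result X hCIP (F ∩ K i) (fun p hp => hC p (hFC hp.1)) A hA
        (hAF.mono_right inter_subset_left)
      have h5 : F ∩ K i ∩ closure A = F ∩ K i :=
        inter_eq_left.2 (inter_subset_right.trans hKA)
      rwa [h5] at this
  have hfin : ∀ s : Finset (Fin n), IsPreconnected (⋂ i ∈ s, ((F ∩ K i)ᶜ : Set X)) := by
    intro s
    induction s using Finset.induction_on with
    | empty => simpa using isPreconnected_univ
    | insert a s ha ih =>
      rw [Finset.set_biInter_insert]
      exact hCIP _ _ (hpiece a) ih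
  have hall := hfin Finset.univ
  have heq : (⋂ i ∈ (Finset.univ : Finset (Fin n)), ((F ∩ K i)ᶜ : Set X)) = Fᶜ := by
    ext x
    simp only [Finset.mem_univ, iInter_true, mem_iInter, mem_compl_iff, mem_inter_iff, not_and]
    constructor
    · intro h hxF
      obtain ⟨i, hi⟩ := mem_iUnion.1 (hcov hxF)
      exact h i hxF hi
    · intro h i hxF
      exact absurd hxF h
  rw [heq] at hall
  exact hFdis hall

end Pool.Agent.Results.MP_0e7155_gt.SmallSeparator
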