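import Mathlib
import Pool.Agent.Results.MP_0e7155_gt.SmallSeparator

/-!
# MP_0e7155_gt : non-cut points at which the space is locally compact

Let `X` be a connected separable metric space in which any two connected sets have a connected
intersection. If `C` is any set of non-cut points of `X` each of which has a compact neighbourhood
in `X`, then `X \ C` is connected. In particular the answer to the question is positive for every
locally compact `X`.
-/

set_option autoImplicit false

open Set Topology Cardinal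

universe u

namespace Pool.Agent.Results.MP_0e7155_gt.LocallyCompactPoints

/-- A nonempty compact perfect set in a metric space has at least continuum many points. -/
lemma card_of_perfect_compact {X : Type u} [MetricSpace X] {P : Set X} (hP : Perfect P)
    (hc : IsCompact P) (hne : P.Nonempty) : 𝔠 ≤ #P := by
  have hcs : CompactSpace P := isCompact_iff_compactSpace.1 hc
  have hper : Perfect (univ : Set P) := by
    refine ⟨isClosed_univ, ?_⟩
    intro x _
    rw [accPt_iff_nhds]
    intro U hU
    rw [mem_nhds_subtype] at hU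
    obtain ⟨V, hV, hVU⟩ := hU
    have hacc := hP.acc x.1 x.2
    rw [accPt_iff_nhds] at hacc
    obtain ⟨y, ⟨hyV, hyP⟩, hyx⟩ := hacc V hV
    exact ⟨⟨y, hyP⟩, ⟨hVU hyV, mem_univ _⟩, fun h => hyx (congrArg Subtype.val h)⟩
  obtain ⟨x, hx⟩ := hne
  obtain ⟨f, -, -, hf3⟩ := hper.exists_nat_bool_injection ⟨⟨x, hx⟩, mem_univ _⟩
  have h1 : #(ULift.{u} (ℕ → Bool)) ≤ #P := by
    refine Cardinal.mk_le_of_injective (f := fun x => f x.down) ?_
    intro x y h
    exact ULift.ext _ _ (hf3 h)
  refine le_trans (le_of_eq ?_) h1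
  simp

/-- On the side `U` of a closed separator, a connected set leaving the point `p`. -/
lemma exists_connected_side {X : Type u} [MetricSpace X] {U V : Set X} {p : X} {ρ : ℝ}
    (hU : IsOpen U) (hV : IsOpen V) (hUV : Disjoint U V) (hpU : p ∉ U) (hpV : p ∉ V)
    (hcl : p ∈ closure U) (hVne : V.Nonempty) (hp : IsPreconnected ({p}ᶜ : Set X)) (hρ : 0 < ρ)
    (hB : IsCompact (Metric.closedBall p ρ))
    (hcov : Metric.closedBall p ρ ⊆ U ∪ V ∪ {p}) :
    ∃ K : Set X, IsPreconnected K ∧ p ∈ K ∧ K ⊆ U ∪ {p} ∧ ∃ x ∈ K, x ∈ U := by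
  classical
  set Z : Set X := Metric.closedBall p ρ ∩ Vᶜ with hZ
  have hZc : IsCompact Z := hB.inter_right hV.isClosed_compl
  have hpZ : p ∈ Z := ⟨Metric.mem_closedBall_self hρ.le, hpV⟩
  have hZU : Z ⊆ U ∪ {p} := by
    rintro x ⟨hx1, hx2⟩
    rcases hcov hx1 with (h | h) | h
    · exact Or.inl h
    · exact absurd h hx2
    · exact Or.inr h
  have hcs : CompactSpace Z := isCompact_iff_compactSpace.1 hZc
  let pz : Z := ⟨p, hpZ⟩
  by_cases hK : ∃ z ∈ connectedComponent pz, (z : X) ≠ p
  · obtain ⟨z, hz, hzp⟩ := hK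
    refine ⟨Subtype.val '' connectedComponent pz, ?_, ?_, ?_, z, ⟨z, hz, rfl⟩, ?_⟩
    · exact isPreconnected_connectedComponent.image _ continuous_subtype_val.continuousOn
    · exact ⟨pz, mem_connectedComponent, rfl⟩
    · rintro x ⟨y, -, rfl⟩
      exact hZU y.2
    · rcases hZU z.2 with h | h
      · exact h
      · exact absurd h hzp
  · exfalso
    push Not at hK
    -- a clopen neighbourhood of `p` in `Z` inside the open ball
    have hint : ∀ x ∈ ⋂ s : {s : Set Z // IsClopen s ∧ pz ∈ s}, (s : Set Z),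
        {z : Z | dist (z : X) p < ρ} ∈ 𝓝 x := by
      intro x hx
      rw [← connectedComponent_eq_iInter_isClopen] at hx
      have hxp : (x : X) = p := hK x hx
      have hopen : IsOpen {z : Z | dist (z : X) p < ρ} :=
        isOpen_lt (continuous_subtype_val.dist continuous_const) continuous_const
      refine hopen.mem_nhds ?_
      change dist (x : X) p < ρ
      rw [hxp, dist_self]
      exact hρ
    have hne : Nonempty {s : Set Z // IsClopen s ∧ pz ∈ s} :=
      ⟨⟨univ, isClopen_univ, mem_univ _⟩⟩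
    have hdir : Directed (· ⊇ ·) fun s : {s : Set Z // IsClopen s ∧ pz ∈ s} => (s : Set Z) := by
      intro s t
      exact ⟨⟨s.1 ∩ t.1, s.2.1.inter t.2.1, s.2.2, t.2.2⟩, inter_subset_left, inter_subset_right⟩
    obtain ⟨⟨N, hN, hpN⟩, hNsub⟩ := exists_subset_nhds_of_compactSpace hdir
      (fun s => s.2.1.isClosed) hint
    obtain ⟨W, hW, hWN⟩ := isOpen_induced_iff.1 hN.isOpen
    set N' : Set X := Z ∩ W with hN'
    have hN'eq : N' = Subtype.val '' N := by
      ext x
      constructor
      · rintro ⟨hx1, hx2⟩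
        refine ⟨⟨x, hx1⟩, ?_, rfl⟩
        rw [← hWN]
        exact hx2
      · rintro ⟨y, hy, rfl⟩
        refine ⟨y.2, ?_⟩
        rw [← hWN] at hy
        exact hy
    have hN'c : IsClosed N' := by
      rw [hN'eq]
      exact (hN.isClosed.isCompact.image continuous_subtype_val).isClosed
    have hpW : p ∈ W := by
      have : pz ∈ Subtype.val ⁻¹' W := by rw [hWN]; exact hpN
      exact this
    have hball : ∀ x ∈ N', dist x p < ρ := by
      intro x hx
      rw [hN'eq] at hx
      obtain ⟨y, hy, rfl⟩ := hx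
      exact hNsub hy
    have heq : N' \ {p} = Metric.ball p ρ ∩ U ∩ W := by
      ext x
      constructor
      · rintro ⟨hx, hxp⟩
        refine ⟨⟨hball x hx, ?_⟩, hx.2⟩
        rcases hZU hx.1 with h | h
        · exact h
        · exact absurd h hxp
      · rintro ⟨⟨hx1, hx2⟩, hx3⟩
        refine ⟨⟨⟨Metric.ball_subset_closedBall hx1, ?_⟩, hx3⟩, ?_⟩
        · exact fun h => Set.disjoint_left.1 hUV hx2 h
        · intro h
          rw [mem_singleton_iff] at h
          exact hpU (h ▸ hx2)
    have hopen : IsOpen (N' \ {p}) := by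
      rw [heq]
      exact (Metric.isOpen_ball.inter hU).inter hW
    have h1 : (({p}ᶜ : Set X) ∩ (N' \ {p})).Nonempty := by
      have hnb : Metric.ball p ρ ∩ W ∈ 𝓝 p :=
        (Metric.isOpen_ball.inter hW).mem_nhds ⟨Metric.mem_ball_self hρ, hpW⟩
      obtain ⟨x, hx1, hx2⟩ := mem_closure_iff_nhds.1 hcl _ hnb
      have hxN : x ∈ N' \ {p} := by
        rw [heq]
        exact ⟨⟨hx1.1, hx2⟩, hx1.2⟩
      exact ⟨x, hxN.2, hxN⟩
    have h2 : (({p}ᶜ : Set X) ∩ N'ᶜ).Nonempty := by
      obtain ⟨v, hv⟩ := hVne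
      refine ⟨v, ?_, ?_⟩
      · intro h
        rw [mem_singleton_iff] at h
        exact hpV (h ▸ hv)
      · intro h
        exact h.1.2 hv
    have hsub : ({p}ᶜ : Set X) ⊆ (N' \ {p}) ∪ N'ᶜ := by
      intro x hx
      by_cases hxN : x ∈ N'
      · exact Or.inl ⟨hxN, hx⟩
      · exact Or.inr hxN
    obtain ⟨x, -, hx1, hx2⟩ := hp _ _ hopen hN'c.isOpen_compl hsub h1 h2
    exact hx2 hx1.1

/-- Let `X` be a connected separable metric space with the connected intersection property and let
`C` be a set of non-cut points of `X`, each of which has a compact neighbourhood in `X`. Then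
`X \ C` is connected. -/
theorem result (X : Type u) [MetricSpace X] [TopologicalSpace.SeparableSpace X] [ConnectedSpace X]
    (hCIP : ∀ A B : Set X, IsPreconnected A → IsPreconnected B → IsPreconnected (A ∩ B))
    (C : Set X) (hC : ∀ c ∈ C, IsPreconnected ({c}ᶜ : Set X))
    (hloc : ∀ c ∈ C, ∃ K ∈ 𝓝 c, IsCompact K) :
    IsPreconnected (Cᶜ : Set X) := by
  classical
  refine SmallSeparator.small_separator X hCIP C ?_
  intro F hFC hFcl hFlt
  by_contra hdis
  obtain ⟨U, V, hU, hV, hUV, hU0, hV0, hsub⟩ := CompactClosedSubsets.exists_sep hdis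
  set V1 : Set X := (closure U)ᶜ with hV1
  set U1 : Set X := (closure V1)ᶜ with hU1
  have hV1o : IsOpen V1 := isClosed_closure.isOpen_compl
  have hU1o : IsOpen U1 := isClosed_closure.isOpen_compl
  have hVV1 : V ⊆ V1 := by
    intro x hx h
    exact Set.disjoint_left.1 (hUV.closure_left hV) h hx
  have hUU1 : U ⊆ U1 := by
    intro x hx h
    have hd : Disjoint V1 U := by
      rw [Set.disjoint_left]
      exact fun y hy hyU => hy (subset_closure hyU)
    exact Set.disjoint_left.1 (hd.closure_left hU) h hx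
  have hd1 : Disjoint U1 V1 := by
    rw [Set.disjoint_left]
    exact fun y hy hyV => hy (subset_closure hyV)
  have hU1ne : U1.Nonempty := hU0.mono hUU1
  have hV1ne : V1.Nonempty := hV0.mono hVV1
  set F1 : Set X := (U1 ∪ V1)ᶜ with hF1
  have hF1F : F1 ⊆ F := by
    intro x hx
    apply hsub
    intro h
    exact hx (union_subset_union hUU1 hVV1 h)
  have hF1cl : IsClosed F1 := (hU1o.union hV1o).isClosed_compl
  have hF1U : ∀ p ∈ F1, p ∈ closure U1 := by
    intro p hp
    have : p ∈ closure U := by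
      by_contra h
      exact hp (Or.inr h)
    exact closure_mono hUU1 this
  have hF1V : ∀ p ∈ F1, p ∈ closure V1 := by
    intro p hp
    by_contra h
    exact hp (Or.inl h)
  have hF1ne : F1.Nonempty := by
    by_contra hemp
    rw [not_nonempty_iff_eq_empty] at hemp
    have huniv : U1 ∪ V1 = Set.univ := by
      rw [← compl_compl (U1 ∪ V1), ← hF1, hemp, compl_empty]
    refine CompactClosedSubsets.not_preconnected_of_open hU1o hV1o hd1 hU1ne hV1ne ?_
    rw [huniv]
    exact isPreconnected_univ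
  obtain ⟨p0, hp0⟩ := hF1ne
  obtain ⟨K0, hK0, hK0c⟩ := hloc p0 (hFC (hF1F hp0))
  obtain ⟨r, hr, hrK⟩ := Metric.nhds_basis_closedBall.mem_iff.1 hK0
  set S : Set X := F1 ∩ Metric.ball p0 r with hS
  have hclS : closure S ⊆ F1 ∩ Metric.closedBall p0 r := by
    refine closure_minimal ?_ (hF1cl.inter Metric.isClosed_closedBall)
    exact inter_subset_inter_right _ Metric.ball_subset_closedBall
  -- an isolated point of `F1`
  have hiso : ∃ p ∈ S, ¬ AccPt p (Filter.principal S) := by
    by_contra hno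
    push Not at hno
    have hpre : Preperfect S := hno
    have hper := hpre.perfect_closure
    have hcomp : IsCompact (closure S) :=
      hK0c.of_isClosed_subset isClosed_closure (hclS.trans (inter_subset_right.trans hrK))
    have h1 := card_of_perfect_compact hper hcomp
      ⟨p0, subset_closure ⟨hp0, Metric.mem_ball_self hr⟩⟩
    have h2 : #(closure S : Set X) ≤ #F :=
      Cardinal.mk_le_mk_of_subset (hclS.trans (inter_subset_left.trans hF1F))
    exact absurd (h1.trans h2) (not_le.2 hFlt)
  obtain ⟨p, hpS, hacc⟩ := hiso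
  rw [accPt_iff_nhds] at hacc
  push Not at hacc
  obtain ⟨O, hO, hOS⟩ := hacc
  have hnb : O ∩ Metric.ball p0 r ∈ 𝓝 p :=
    Filter.inter_mem hO (Metric.isOpen_ball.mem_nhds hpS.2)
  obtain ⟨ρ, hρ, hρsub⟩ := Metric.nhds_basis_closedBall.mem_iff.1 hnb
  have hBc : IsCompact (Metric.closedBall p ρ) :=
    hK0c.of_isClosed_subset Metric.isClosed_closedBall
      ((hρsub.trans inter_subset_right).trans (Metric.ball_subset_closedBall.trans hrK))
  have hcov : Metric.closedBall p ρ ⊆ U1 ∪ V1 ∪ {p} := by
    intro x hx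
    by_cases hxF : x ∈ F1
    · right
      exact hOS x ⟨(hρsub hx).1, hxF, (hρsub hx).2⟩
    · left
      by_contra h
      exact hxF h
  have hpF1 : p ∈ F1 := hpS.1
  have hpU : p ∉ U1 := fun h => hpF1 (Or.inl h)
  have hpV : p ∉ V1 := fun h => hpF1 (Or.inr h)
  have hpc : IsPreconnected ({p}ᶜ : Set X) := hC p (hFC (hF1F hpF1))
  obtain ⟨KU, hKU1, hKU2, hKU3, x, hxK, hxU⟩ := exists_connected_side hU1o hV1o hd1 hpU hpV
    (hF1U p hpF1) hV1ne hpc hρ hBc hcov
  obtain ⟨KV, hKV1, hKV2, hKV3, y, hyK, hyV⟩ := exists_connected_side hV1o hU1o hd1.symm hpV hpU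
    (hF1V p hpF1) hU1ne hpc hρ hBc (by rwa [union_comm V1 U1])
  have hK : IsPreconnected (KU ∪ KV) := IsPreconnected.union p hKU2 hKV2 hKU1 hKV1
  have hKp := hCIP _ _ hK hpc
  obtain ⟨z, -, hz1, hz2⟩ := hKp U1 V1 hU1o hV1o (by
      rintro z ⟨hz | hz, hzp⟩
      · rcases hKU3 hz with h | h
        · exact Or.inl h
        · exact absurd h hzp
      · rcases hKV3 hz with h | h
        · exact Or.inr h
        · exact absurd h hzp)
    ⟨x, ⟨Or.inl hxK, fun h => hpU (by rw [mem_singleton_iff] at h; exact h ▸ hxU)⟩, hxU⟩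
    ⟨y, ⟨Or.inr hyK, fun h => hpV (by rw [mem_singleton_iff] at h; exact h ▸ hyV)⟩, hyV⟩
  exact Set.disjoint_left.1 hd1 hz1 hz2

end Pool.Agent.Results.MP_0e7155_gt.LocallyCompactPoints
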