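import Mathlib
import Pool.Agent.Results.MP_0e7155_gt.LocallyCompactPoints

/-!
# MP_0e7155_gt : complete spaces, points of local compactness or local connectedness

Let `X` be a connected complete separable metric space in which any two connected sets have a
connected intersection. If `C` is a set of non-cut points of `X` at each of which `X` is locally
compact or connected im kleinen, then `X \ C` is connected.
-/

set_option autoImplicit false

open Set Topology Cardinal

universe u

namespace Pool.Agent.Results.MP_0e7155_gt.CompleteImKleinen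

/-- A closed set without isolated points in a complete metric space is empty or has at least
continuum many points. -/
lemma card_of_perfect {X : Type u} [MetricSpace X] [CompleteSpace X] {P : Set X} (hP : Perfect P)
    (hne : P.Nonempty) : 𝔠 ≤ #P := by
  obtain ⟨f, hf1, -, hf3⟩ := hP.exists_nat_bool_injection hne
  have h1 : #(ULift.{u} (ℕ → Bool)) ≤ #P := by
    refine Cardinal.mk_le_of_injective (f := fun x => ⟨f x.down, hf1 ⟨x.down, rfl⟩⟩) ?_
    intro x y h
    exact ULift.ext _ _ (hf3 (congrArg Subtype.val h))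
  refine le_trans (le_of_eq ?_) h1
  simp

/-- Let `X` be a connected complete separable metric space with the connected intersection
property and let `C` be a set of non-cut points of `X` such that at every point `c` of `C` either
`X` is locally compact or `X` is connected im kleinen (every neighbourhood of `c` contains a
connected neighbourhood of `c`). Then `X \ C` is connected. -/
theorem result (X : Type u) [MetricSpace X] [CompleteSpace X] [TopologicalSpace.SeparableSpace X]
    [ConnectedSpace X]
    (hCIP : ∀ A B : Set X, IsPreconnected A → IsPreconnected B → IsPreconnected (A ∩ B))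
    (C : Set X) (hC : ∀ c ∈ C, IsPreconnected ({c}ᶜ : Set X))
    (hloc : ∀ c ∈ C, (∃ K ∈ 𝓝 c, IsCompact K) ∨
      ∀ O ∈ 𝓝 c, ∃ K ∈ 𝓝 c, IsPreconnected K ∧ K ⊆ O) :
    IsPreconnected (Cᶜ : Set X) := by
  classical
  refine SmallSeparator.small_separator X hCIP C ?_
  intro F hFC hFcl hFlt
  by_contra hdis
  obtain ⟨U, V, hU, hV, hUV, hU0, hV0, hsub⟩ := CompactClosedSubsets.exists_sep hdis
  set V1 : Set X := (closure U)ᶜ with hV1
  set U1 : Set X := (closure V1)ᶜ with hU1
  have hV1o : IsOpen V1 := isClosed_closure.isOpen_compl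
  have hU1o : IsOpen U1 := isClosed_closure.isOpen_compl
  have hVV1 : V ⊆ V1 := by
    intro x hx h
    exact Set.disjoint_left.1 (hUV.closure_left hV) h hx
  have hUU1 : U ⊆ U1 := by
    intro x hx h
    have hd : Disjoint V1 U := by
      rw [Set.disjoint_left]
      exact fun y hy hyU => hy (subset_closure hyU)
    exact Set.disjoint_left.1 (hd.closure_left hU) h hx
  have hd1 : Disjoint U1 V1 := by
    rw [Set.disjoint_left]
    exact fun y hy hyV => hy (subset_closure hyV)
  have hU1ne : U1.Nonempty := hU0.mono hUU1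
  have hV1ne : V1.Nonempty := hV0.mono hVV1
  set F1 : Set X := (U1 ∪ V1)ᶜ with hF1
  have hF1F : F1 ⊆ F := by
    intro x hx
    apply hsub
    intro h
    exact hx (union_subset_union hUU1 hVV1 h)
  have hF1cl : IsClosed F1 := (hU1o.union hV1o).isClosed_compl
  have hF1U : ∀ p ∈ F1, p ∈ closure U1 := by
    intro p hp
    have : p ∈ closure U := by
      by_contra h
      exact hp (Or.inr h)
    exact closure_mono hUU1 this
  have hF1V : ∀ p ∈ F1, p ∈ closure V1 := by
    intro p hp
    by_contra h
    exact hp (Or.inl h)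
  have hF1ne : F1.Nonempty := by
    by_contra hemp
    rw [not_nonempty_iff_eq_empty] at hemp
    have huniv : U1 ∪ V1 = Set.univ := by
      rw [← compl_compl (U1 ∪ V1), ← hF1, hemp, compl_empty]
    refine CompactClosedSubsets.not_preconnected_of_open hU1o hV1o hd1 hU1ne hV1ne ?_
    rw [huniv]
    exact isPreconnected_univ
  -- an isolated point of `F1`
  have hiso : ∃ p ∈ F1, ¬ AccPt p (Filter.principal F1) := by
    by_contra hno
    push Not at hno
    have h1 := card_of_perfect ⟨hF1cl, hno⟩ hF1ne
    have h2 : #F1 ≤ #F := Cardinal.mk_le_mk_of_subset hF1F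
    exact absurd (h1.trans h2) (not_le.2 hFlt)
  obtain ⟨p, hpF1, hacc⟩ := hiso
  rw [accPt_iff_nhds] at hacc
  push Not at hacc
  obtain ⟨O, hO, hOS⟩ := hacc
  have hpU : p ∉ U1 := fun h => hpF1 (Or.inl h)
  have hpV : p ∉ V1 := fun h => hpF1 (Or.inr h)
  have hpc : IsPreconnected ({p}ᶜ : Set X) := hC p (hFC (hF1F hpF1))
  rcases hloc p (hFC (hF1F hpF1)) with ⟨K0, hK0, hK0c⟩ | him
  · have hnb : O ∩ K0 ∈ 𝓝 p := Filter.inter_mem hO hK0
    obtain ⟨ρ, hρ, hρsub⟩ := Metric.nhds_basis_closedBall.mem_iff.1 hnb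
    have hBc : IsCompact (Metric.closedBall p ρ) :=
      hK0c.of_isClosed_subset Metric.isClosed_closedBall (hρsub.trans inter_subset_right)
    have hcov : Metric.closedBall p ρ ⊆ U1 ∪ V1 ∪ {p} := by
      intro x hx
      by_cases hxF : x ∈ F1
      · right
        exact hOS x ⟨(hρsub hx).1, hxF⟩
      · left
        by_contra h
        exact hxF h
    obtain ⟨KU, hKU1, hKU2, hKU3, x, hxK, hxU⟩ := LocallyCompactPoints.exists_connected_side
      hU1o hV1o hd1 hpU hpV (hF1U p hpF1) hV1ne hpc hρ hBc hcov
    obtain ⟨KV, hKV1, hKV2, hKV3, y, hyK, hyV⟩ := LocallyCompactPoints.exists_connected_side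
      hV1o hU1o hd1.symm hpV hpU (hF1V p hpF1) hU1ne hpc hρ hBc (by rwa [union_comm V1 U1])
    have hK : IsPreconnected (KU ∪ KV) := IsPreconnected.union p hKU2 hKV2 hKU1 hKV1
    have hKp := hCIP _ _ hK hpc
    obtain ⟨z, -, hz1, hz2⟩ := hKp U1 V1 hU1o hV1o (by
        rintro z ⟨hz | hz, hzp⟩
        · rcases hKU3 hz with h | h
          · exact Or.inl h
          · exact absurd h hzp
        · rcases hKV3 hz with h | h
          · exact Or.inr h
          · exact absurd h hzp)
      ⟨x, ⟨Or.inl hxK, fun h => hpU (by rw [mem_singleton_iff] at h; exact h ▸ hxU)⟩, hxU⟩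
      ⟨y, ⟨Or.inr hyK, fun h => hpV (by rw [mem_singleton_iff] at h; exact h ▸ hyV)⟩, hyV⟩
    exact Set.disjoint_left.1 hd1 hz1 hz2
  · obtain ⟨K, hK, hKc, hKO⟩ := him O hO
    have hKp := hCIP _ _ hKc hpc
    obtain ⟨x, hxK, hxU⟩ := mem_closure_iff_nhds.1 (hF1U p hpF1) K hK
    obtain ⟨y, hyK, hyV⟩ := mem_closure_iff_nhds.1 (hF1V p hpF1) K hK
    obtain ⟨z, -, hz1, hz2⟩ := hKp U1 V1 hU1o hV1o (by
        rintro z ⟨hz, hzp⟩
        by_contra h
        exact hzp (hOS z ⟨hKO hz, h⟩))
      ⟨x, ⟨hxK, fun h => hpU (by rw [mem_singleton_iff] at h; exact h ▸ hxU)⟩, hxU⟩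
      ⟨y, ⟨hyK, fun h => hpV (by rw [mem_singleton_iff] at h; exact h ▸ hyV)⟩, hyV⟩
    exact Set.disjoint_left.1 hd1 hz1 hz2

end Pool.Agent.Results.MP_0e7155_gt.CompleteImKleinen
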